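import Pool.Agent.H488.W.Mzv

/-!
# Near relations between double (and multiple) zeta values after damping, at every scale

For a sequence `w = (k_1, …, k_r)`, `r ≥ 1`, of positive integers and `j ≥ 0` let `H_j(w)` be the truncated multiple zeta
value `∑ 1/(m_1^{k_1} … m_r^{k_r})`, the sum over `j ≥ m_1 > … > m_r ≥ 1`, and, if `w` is admissible (`k_1 ≥ 2`), `ζ(w)`
the multiple zeta value. Let `S_w(x) = exp (-x) * ∑_j x^j/j! * H_j(w)` be the Poisson mean of the truncated values and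
`T_w(x) = exp (-x) * ∑_j x^j/j! * (ζ(w) - H_j(w))` the Poisson mean of the tails. So `T_w(0) = ζ(w)`.

Let `β_1, …, β_q` be linearly independent over `ℚ` elements of the ring generated by the algebraic numbers and the numbers
`exp b`, `b` algebraic (for example the one number `1`). For the even weight `k = 2 m` let `R(x)`, `x ∈ ℂ`, be the space
of the rational relations `∑ c_(a, l) β_l T_{(2a+1, 2b-1)}(x) = 0`, `a, b ≥ 1`, `a + b = m`, so that for `q = 1`, `β = 1` the
space `R(0) = R_k` is the space of the relations between the double zeta values `ζ(2a+1, 2b-1)` of the problem. Let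
`R(x, H)` be the space which is generated by the near relations at the scale `H`, the integral vectors `c` with `|c_(a, l)| ≤ H`
and `|∑ c_(a, l) β_l T_{(2a+1, 2b-1)}(x)| ≤ H^(-κ)`.

Let `x_1, …, x_N` be different nonzero algebraic numbers, and `E ≥ 2`.

(3) There is a `κ` such that at all large scales `H` the spaces `R(0), R(x_1, H), …, R(x_N, H)` are independent: their sum is
direct. In particular the sum `t(H)` of their dimensions is at most `(m - 1) q`. If it is equal to `(m - 1) q`, either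
`R(x_j, Y) = R(x_j)` for all `Y ≥ H` and all `j`, or there is a `Z ≥ H` such that `R(x_j, Y) ⊆ R(x_j, H)` for `H ≤ Y ≤ Z` and
`t(Y) < (m - 1) q` for `Z < Y ≤ Z^E`. And `t(H) = (m - 1) q` for all large `H` if and only if the sum of the dimensions of
`R(0), R(x_1), …, R(x_N)` is `(m - 1) q`.

Gangl, Kaneko and Zagier proved `dim R_k ≥ dim S_k`, and the question is whether there is equality. By (3), for each scale
the number of independent near relations at all points `x_j` together is at most `m - 1 - dim R_k`; in particular no relation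
between the double zeta values is a near relation at a point `x_j`.

(2) The same holds for `1` and the numbers `T_w(x)`, `w` in any finite set of admissible sequences.

(4) If the points `x_j` and `conj x_j` are all different and the `β_l` are real then
`dim R(0) + 2 ∑ dim R(x_j, H) ≤ (m - 1) q` at all large scales.

(1) Let `𝓥` be the ring which is generated by the algebraic numbers, the numbers `exp b`, `b` algebraic, the iterated integrals
from `0` to `1` of the forms `dt/t`, `(exp (a t) - 1) dt/t`, `a` algebraic, and the numbers `S_w(x)`, `w` any sequence of positive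
integers, `x` algebraic. The values of the integral polynomials of bounded degree and height at most `H` at finitely many
elements of `𝓥` (which may be algebraically dependent) are zero or at least `c H^(-κ)`.

For the exact relations (the spaces `R(x_j)` instead of `R(x_j, H)`, over the field of the exponential polynomials) the
independence is the theorem `RelationsAfterDamping` of the library.
-/

set_option autoImplicit false

namespace Pool.Agent.Results.MP_9206b6_nt.NearRelationsAtEveryScale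

/-- the truncated multiple zeta value: `H_j(k_1, …, k_r)` is the sum over `j ≥ m_1 > … > m_r ≥ 1` -/
noncomputable def H : List ℕ → ℕ → ℂ
  | [], _ => 1
  | k :: w, j => ∑ i ∈ Finset.range j, H w i / ((i : ℂ) + 1) ^ k

/-- the multiple zeta value (here `m_1 = i + 1`) -/
noncomputable def zeta : List ℕ → ℂ
  | [] => 1
  | k :: w => ∑' i : ℕ, H w i / ((i : ℂ) + 1) ^ k

/-- the tail: the sum over `m_1 > j` (here `m_1 = i + j + 1`) -/
noncomputable def tail : List ℕ → ℕ → ℂ
  | [], _ => 0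
  | k :: w, j => ∑' i : ℕ, H w (i + j) / ((i : ℂ) + j + 1) ^ k

/-- `S_w(x)` -/
noncomputable def S (w : List ℕ) (x : ℂ) : ℂ := Complex.exp (-x) * ∑' j : ℕ, x ^ j / j.factorial * H w j

/-- `T_w(x)` -/
noncomputable def T (w : List ℕ) (x : ℂ) : ℂ := Complex.exp (-x) * ∑' j : ℕ, x ^ j / j.factorial * tail w j

/-- nonempty sequences of integers `≥ 1` with `k_1 ≥ 2` -/
def Admissible (w : List ℕ) : Prop := w ≠ [] ∧ (∀ k ∈ w, 1 ≤ k) ∧ ∀ k ∈ w.head?, 2 ≤ k

/-- the sequence `(2a+1, 2b-1)` with `a = i + 1` and `a + b = m` -/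
def oddPair (m : ℕ) (i : Fin (m - 1)) : List ℕ := [2 * i + 3, 2 * m - 2 * i - 3]

/-- the iterated integral from `0` to `t` of the word `w`; the letter `a ≠ 0` stands for the form
`(e^(a s) - 1) ds / s` and the letter `0` for the form `ds / s` -/
noncomputable def iterated : List ℂ → ℝ → ℂ
  | [], _ => 1
  | a :: v, t => ∫ s in (0 : ℝ)..t, (if a = 0 then 1 else Complex.exp (a * s) - 1) * iterated v s / s

/-- the ring of the exponential polynomials -/
noncomputable def expRing : Subalgebra ℚ ℂ := Algebra.adjoin ℚ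
  ({z | IsAlgebraic ℚ z} ∪ {z | ∃ b : ℂ, IsAlgebraic ℚ b ∧ z = Complex.exp b})

/-- the ring `𝓥` -/
noncomputable def valueRing : Subalgebra ℚ ℂ := Algebra.adjoin ℚ
  ({z | IsAlgebraic ℚ z} ∪ {z | ∃ b : ℂ, IsAlgebraic ℚ b ∧ z = Complex.exp b} ∪
    {z | ∃ v : List ℂ, (∀ a ∈ v, IsAlgebraic ℚ a) ∧ (∀ h : v ≠ [], v.getLast h ≠ 0) ∧ z = iterated v 1} ∪
    {z | ∃ (w : List ℕ) (x : ℂ), (∀ k ∈ w, 1 ≤ k) ∧ IsAlgebraic ℚ x ∧ z = S w x})

/-- the integer polynomials in the variables `σ`, of degree at most `d` in every variable,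
with coefficients of absolute value at most `H` -/
def Poly (σ : Type) (d : ℕ) (H : ℝ) : Set (MvPolynomial σ ℤ) :=
  {P | (∀ i, P.degreeOf i ≤ d) ∧ ∀ m, |((P.coeff m : ℤ) : ℝ)| ≤ H}

/-- different nonzero algebraic numbers -/
def Points {N : ℕ} (x : Fin N → ℂ) : Prop := (∀ j, IsAlgebraic ℚ (x j) ∧ x j ≠ 0) ∧ Function.Injective x

/-- the numbers `β_l` -/
def Coeffs {q : ℕ} (β : Fin q → ℂ) : Prop := (∀ l, β l ∈ expRing) ∧ LinearIndependent ℚ β

/-- the numbers `β_l` and `β_l T_w(x)` -/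
noncomputable def value {n q : ℕ} (β : Fin q → ℂ) (w : Fin n → List ℕ) (x : ℂ)
    (p : Option (Fin n) × Fin q) : ℂ := β p.2 * p.1.elim 1 fun a => T (w a) x

/-- the numbers `β_l T_w(x)`, `w = (2a+1, 2b-1)` -/
noncomputable def oddValue {q : ℕ} (β : Fin q → ℂ) (m : ℕ) (x : ℂ) (p : Fin (m - 1) × Fin q) : ℂ :=
  β p.2 * T (oddPair m p.1) x

section

variable {A : Type} [Fintype A]

/-- the space of the rational relations between the numbers `V a` -/
noncomputable def Rel (V : A → ℂ) : Submodule ℚ (A → ℚ) :=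
  LinearMap.ker (Fintype.linearCombination ℚ V)

/-- the space generated by the near relations at the scale `H` -/
def Near (V : A → ℂ) (κ : ℕ) (H : ℝ) : Submodule ℚ (A → ℚ) :=
  Submodule.span ℚ {c | ∃ b : A → ℤ, (∀ a, c a = b a) ∧ (∀ a, |(b a : ℝ)| ≤ H) ∧
    ‖∑ a, (b a : ℂ) * V a‖ ≤ 1 / H ^ κ}

/-- the sum `t(H)` of the dimensions of `R(0)` and the `R(x_j, H)` -/
noncomputable def total {N : ℕ} (V : ℂ → A → ℂ) (x : Fin N → ℂ) (κ : ℕ) (H : ℝ) : ℕ :=
  Module.finrank ℚ (Rel (V 0)) + ∑ j, Module.finrank ℚ (Near (V (x j)) κ H)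

/-- the law: direct sum, bound, dichotomy of scales, zero-one law -/
def Law {N : ℕ} (E κ : ℕ) (V : ℂ → A → ℂ) (x : Fin N → ℂ) : Prop :=
  (∃ H₀ : ℝ, ∀ H : ℝ, H₀ ≤ H →
    (∀ r ∈ Rel (V 0), ∀ c : Fin N → A → ℚ, (∀ j, c j ∈ Near (V (x j)) κ H) → r + ∑ j, c j = 0 →
      r = 0 ∧ ∀ j, c j = 0) ∧
    total V x κ H ≤ Fintype.card A ∧
    (total V x κ H = Fintype.card A →
      (∀ Y : ℝ, H ≤ Y → ∀ j, Near (V (x j)) κ Y = Rel (V (x j))) ∨
      ∃ Z : ℝ, H ≤ Z ∧
        (∀ Y : ℝ, H ≤ Y → Y ≤ Z → ∀ j, Near (V (x j)) κ Y ≤ Near (V (x j)) κ H) ∧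
        ∀ Y : ℝ, Z < Y → Y ≤ Z ^ E → total V x κ Y < Fintype.card A)) ∧
  ((Module.finrank ℚ (Rel (V 0)) + ∑ j, Module.finrank ℚ (Rel (V (x j))) = Fintype.card A) ↔
    ∃ H₁ : ℝ, ∀ H : ℝ, H₁ ≤ H → total V x κ H = Fintype.card A)

end

open Pool.Agent.N778
open Pool.Agent.H488 Pool.Agent.H488.W

theorem iterated_eq (w : List ℂ) : ∀ t : ℝ, iterated w t = Pool.Agent.N902.EW.II w t := by
  induction w with
  | nil => intro t; rfl
  | cons a v ih =>
    intro t
    rw [iterated, Pool.Agent.N902.EW.II]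
    refine intervalIntegral.integral_congr fun s _ => ?_
    show (if a = 0 then 1 else Complex.exp (a * s) - 1) * iterated v s / s = _
    rw [ih]

theorem H_eq (w : List ℕ) (j : ℕ) : H w j = MZ.H w j := by
  induction w generalizing j with
  | nil => rfl
  | cons k w ih =>
    rw [H, MZ.H]
    exact Finset.sum_congr rfl fun i _ => by rw [ih]

theorem zeta_eq (w : List ℕ) : zeta w = MZ.zt w := by
  rcases w with _ | ⟨k, w⟩
  · rfl
  · rw [zeta, MZ.zt]
    exact tsum_congr fun i => by rw [H_eq]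

theorem tail_eq (w : List ℕ) (j : ℕ) : tail w j = MZ.tl w j := by
  rcases w with _ | ⟨k, w⟩
  · rfl
  · rw [tail, MZ.tl]
    exact tsum_congr fun i => by rw [H_eq]

theorem S_eq (w : List ℕ) (x : ℂ) : S w x = MZ.S w x := by
  rw [S, MZ.S]
  congr 1
  exact tsum_congr fun j => by rw [H_eq]

theorem T_eq (w : List ℕ) (x : ℂ) : T w x = MZ.T w x := by
  rw [T, MZ.T]
  congr 1
  exact tsum_congr fun j => by rw [tail_eq]

theorem adm_iff {w : List ℕ} (h : Admissible w) : MZ.AdW w := by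
  rcases w with _ | ⟨k, w⟩
  · exact absurd rfl h.1
  · exact ⟨h.2.2 k (by simp), fun l hl => h.2.1 l (List.mem_cons_of_mem _ hl)⟩

theorem T_zero {w : List ℕ} (hw : Admissible w) : T w 0 = zeta w := by
  rw [T_eq, zeta_eq]
  exact MZ.T_zeron (adm_iff hw)

theorem oddPair_adm {m : ℕ} (i : Fin (m - 1)) : Admissible (oddPair m i) := by
  have hi := i.2
  refine ⟨by simp [oddPair], fun k hk => ?_, fun k hk => ?_⟩
  · rw [oddPair, List.mem_cons, List.mem_singleton] at hk
    omega
  · rw [oddPair, List.head?_cons, Option.mem_some_iff] at hk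
    omega

theorem oddPair_inj {m : ℕ} : Function.Injective (oddPair m) := by
  intro i j h
  have h1 : 2 * (i : ℕ) + 3 = 2 * j + 3 := (List.cons.inj h).1
  exact Fin.ext (by omega)

theorem near_eq {A : Type} [Fintype A] (V : A → ℂ) (κ : ℕ) (H : ℝ) : Near V κ H = NS V κ H := by
  rw [Near, NS]
  congr 1
  ext c
  constructor
  · rintro ⟨b, hb, h1, h2⟩
    exact ⟨b, ⟨h1, h2⟩, (funext hb).symm⟩
  · rintro ⟨b, ⟨h1, h2⟩, rfl⟩
    exact ⟨b, fun _ => rfl, h1, h2⟩

theorem law_of {A : Type} [Fintype A] {N : ℕ} {E κ : ℕ} {V : ℂ → A → ℂ} {x : Fin N → ℂ}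
    (h : LawN E κ (V 0) fun j => V (x j)) : Law E κ V x := by
  have e : ∀ Y, total V x κ Y = tot (V 0) (fun j => V (x j)) κ Y := by
    intro Y
    rw [total, tot]
    congr 1
    exact Finset.sum_congr rfl fun j _ => by rw [near_eq]
  unfold Law
  simp only [e, near_eq]
  exact h

theorem coeffs_ER {q : ℕ} {β : Fin q → ℂ} (hβ : Coeffs β) : ∀ l, β l ∈ ER := hβ.1

theorem value_eq {n q : ℕ} (β : Fin q → ℂ) (w : Fin n → List ℕ) (x : ℂ) :
    value β w x = tt β w (id : Option (Fin n) → Option (Fin n)) x := by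
  funext p
  rw [value, tt]
  congr 1
  rcases p.1 with _ | a
  · rfl
  · exact T_eq _ _

theorem value_zero {n q : ℕ} (β : Fin q → ℂ) {w : Fin n → List ℕ} (hw : ∀ a, Admissible (w a)) :
    value β w 0 = uu β w (id : Option (Fin n) → Option (Fin n)) := by
  funext p
  rw [value, uu]
  congr 1
  rcases p.1 with _ | a
  · rfl
  · exact (T_zero (hw a)).trans (zeta_eq _)

theorem oddValue_eq {q : ℕ} (β : Fin q → ℂ) (m : ℕ) (x : ℂ) :
    oddValue β m x = tt β (oddPair m) (some : Fin (m - 1) → Option (Fin (m - 1))) x := by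
  funext p
  rw [oddValue, tt, T_eq]
  rfl

theorem oddValue_zero {q : ℕ} (β : Fin q → ℂ) (m : ℕ) :
    oddValue β m 0 = uu β (oddPair m) (some : Fin (m - 1) → Option (Fin (m - 1))) := by
  funext p
  rw [oddValue, uu, T_zero (oddPair_adm _), zeta_eq]
  rfl

theorem part2 {n q N : ℕ} {w : Fin n → List ℕ} {β : Fin q → ℂ} {x : Fin N → ℂ}
    (hw : ∀ a, Admissible (w a)) (hwi : Function.Injective w) (hβ : Coeffs β) (hx : Points x)
    (E : ℕ) (hE : 2 ≤ E) : ∃ κ : ℕ, Law E κ (value β w) x := by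
  obtain ⟨κ, h⟩ := law_mzv (coeffs_ER hβ) hβ.2 (fun a => adm_iff (hw a)) hwi hx.1 hx.2
    (id : Option (Fin n) → Option (Fin n)) Function.injective_id E hE
  refine ⟨κ, law_of ?_⟩
  have e : (fun j => value β w (x j)) =
      fun j => tt β w (id : Option (Fin n) → Option (Fin n)) (x j) := by
    funext j
    exact value_eq β w (x j)
  rw [e, value_zero β hw]
  exact h

theorem part3 {m q N : ℕ} {β : Fin q → ℂ} {x : Fin N → ℂ} (hβ : Coeffs β) (hx : Points x)
    (E : ℕ) (hE : 2 ≤ E) : ∃ κ : ℕ, Law E κ (oddValue β m) x := by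
  obtain ⟨κ, h⟩ := law_mzv (coeffs_ER hβ) hβ.2 (fun a => adm_iff (oddPair_adm a)) oddPair_inj
    hx.1 hx.2 (some : Fin (m - 1) → Option (Fin (m - 1))) (Option.some_injective _) E hE
  refine ⟨κ, law_of ?_⟩
  have e : (fun j => oddValue β m (x j)) =
      fun j => tt β (oddPair m) (some : Fin (m - 1) → Option (Fin (m - 1))) (x j) := by
    funext j
    exact oddValue_eq β m (x j)
  rw [e, oddValue_zero β m]
  exact h

theorem T_conj {w : List ℕ} (hw : Admissible w) (x : ℂ) :
    T w ((starRingEnd ℂ) x) = (starRingEnd ℂ) (T w x) := by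
  rw [T_eq, T_eq, MZ.Tn_eq (adm_iff hw), MZ.Tn_eq (adm_iff hw), map_sub, L.S_conj, L.zt_conj]

theorem near_conj {m q : ℕ} {β : Fin q → ℂ} (hβ : ∀ l, (starRingEnd ℂ) (β l) = β l) (x : ℂ)
    (κ : ℕ) (H : ℝ) :
    Near (oddValue β m ((starRingEnd ℂ) x)) κ H = Near (oddValue β m x) κ H := by
  rw [Near, Near]
  congr 1
  have h1 : ∀ b : Fin (m - 1) × Fin q → ℤ, ∑ a, (b a : ℂ) * oddValue β m ((starRingEnd ℂ) x) a =
      (starRingEnd ℂ) (∑ a, (b a : ℂ) * oddValue β m x a) := by
    intro b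
    rw [map_sum]
    refine Finset.sum_congr rfl fun a _ => ?_
    rw [oddValue, oddValue, map_mul, map_mul, map_intCast, hβ, T_conj (oddPair_adm _)]
  ext c
  constructor
  · rintro ⟨b, h2, h3, h4⟩
    rw [h1, Complex.norm_conj] at h4
    exact ⟨b, h2, h3, h4⟩
  · rintro ⟨b, h2, h3, h4⟩
    refine ⟨b, h2, h3, ?_⟩
    rw [h1, Complex.norm_conj]
    exact h4

theorem part4 {m q N : ℕ} {β : Fin q → ℂ} {x : Fin N → ℂ} (hβ : Coeffs β) (hx : Points x)
    (hβ2 : ∀ l, (starRingEnd ℂ) (β l) = β l) (hx2 : ∀ i j, x i ≠ (starRingEnd ℂ) (x j)) :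
    ∃ (κ : ℕ) (H₀ : ℝ), ∀ H : ℝ, H₀ ≤ H → Module.finrank ℚ (Rel (oddValue β m 0)) +
      2 * ∑ j, Module.finrank ℚ (Near (oddValue β m (x j)) κ H) ≤ (m - 1) * q := by
  obtain ⟨κ, ⟨H₀, h⟩, -⟩ := part3 (m := m) (x := fun j : Fin (N + N) =>
      Sum.elim x (fun j => (starRingEnd ℂ) (x j)) (finSumFinEquiv.symm j)) hβ (by
    have h0 : ∀ o : Fin N ⊕ Fin N, IsAlgebraic ℚ (Sum.elim x (fun j => (starRingEnd ℂ) (x j)) o) ∧
        Sum.elim x (fun j => (starRingEnd ℂ) (x j)) o ≠ 0 := by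
      rintro (i | i)
      · exact hx.1 i
      · refine ⟨H596.Q.conj_alg _ (hx.1 i).1, fun h0 => (hx.1 i).2 ?_⟩
        rwa [Sum.elim_inr, map_eq_zero] at h0
    refine ⟨fun j => h0 _, ?_⟩
    refine Function.Injective.comp (g := Sum.elim x fun j => (starRingEnd ℂ) (x j)) ?_
        finSumFinEquiv.symm.injective
    rintro (i | i) (j | j) hij
    · exact congrArg Sum.inl (hx.2 hij)
    · exact absurd hij (hx2 i j)
    · exact absurd hij.symm (hx2 j i)
    · exact congrArg Sum.inr (hx.2 ((starRingEnd ℂ).injective hij))) 2 le_rfl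
  refine ⟨κ, H₀, fun H hH => ?_⟩
  have h1 := (h H hH).2.1
  rw [total, Fintype.card_prod, Fintype.card_fin, Fintype.card_fin] at h1
  have h2 : ∑ j : Fin (N + N), Module.finrank ℚ (Near (oddValue β m
      (Sum.elim x (fun j => (starRingEnd ℂ) (x j)) (finSumFinEquiv.symm j))) κ H) =
      2 * ∑ j, Module.finrank ℚ (Near (oddValue β m (x j)) κ H) := by
    rw [Equiv.sum_comp finSumFinEquiv.symm (fun o : Fin N ⊕ Fin N =>
      Module.finrank ℚ (Near (oddValue β m (Sum.elim x (fun j => (starRingEnd ℂ) (x j)) o)) κ H)),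
      Fintype.sum_sum_type, two_mul]
    congr 1
    refine Finset.sum_congr rfl fun j _ => ?_
    rw [Sum.elim_inr, near_conj hβ2]
  rw [h2] at h1
  exact h1

theorem mem_range {z : ℂ} (hz : z ∈ valueRing) :
    z ∈ (Pool.Agent.N902.EW.evA Pool.Agent.N902.EW.io).range := by
  rw [valueRing] at hz
  induction hz using Algebra.adjoin_induction with
  | mem z hz =>
    rcases hz with ((hz | hz) | ⟨v, hv, hv', rfl⟩) | ⟨w, x, hw, hx, rfl⟩
    · exact ER_range (Algebra.subset_adjoin (Or.inl hz))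
    · exact ER_range (Algebra.subset_adjoin (Or.inr hz))
    · obtain ⟨u, rfl, hu⟩ := Pool.Agent.N902.EW.exists_word (w := v) ⟨hv, hv'⟩
      refine ⟨Pool.Agent.N902.EW.mk 0 u hu, ?_⟩
      rw [Pool.Agent.N902.EW.evA_mk, Pool.Agent.N902.EW.evk_ex_zero, one_mul, iterated_eq,
        Pool.Agent.N902.EW.II_one u hu]
    · rw [S_eq]
      by_cases hx0 : x = 0
      · by_cases hw0 : w = []
        · rw [hx0, hw0]
          have e : MZ.S [] 0 = 1 := by
            rw [MZ.S, tsum_eq_single 0]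
            · simp [MZ.H]
            · intro j hj
              rw [zero_pow hj]
              simp
          rw [e]
          exact Subring.one_mem _
        · rw [hx0, MZ.S_zeron hw0]
          exact Subring.zero_mem _
      · exact S_range hw hx hx0
  | algebraMap r =>
    refine ER_range ?_
    exact Subalgebra.algebraMap_mem _ _
  | add x y _ _ hx hy => exact Subring.add_mem _ hx hy
  | mul x y _ _ hx hy => exact Subring.mul_mem _ hx hy

/-- **Near relations between double zeta values after damping, at every scale** -/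
theorem result :
    -- the point `0`
    (∀ w : List ℕ, Admissible w → T w 0 = zeta w) ∧
    -- (1)
    (∀ (r : ℕ) (z : Fin r → ℂ), (∀ i, z i ∈ valueRing) → ∀ d : ℕ, ∃ (κ : ℕ) (c : ℝ), 0 < c ∧
      ∀ H : ℝ, 1 ≤ H → ∀ P ∈ Poly (Fin r) d H, MvPolynomial.aeval z P = 0 ∨
        c / H ^ κ ≤ ‖MvPolynomial.aeval z P‖) ∧
    -- (2)
    (∀ (n q N : ℕ) (w : Fin n → List ℕ) (β : Fin q → ℂ) (x : Fin N → ℂ), (∀ a, Admissible (w a)) →
      Function.Injective w → Coeffs β → Points x → ∀ E : ℕ, 2 ≤ E → ∃ κ : ℕ, Law E κ (value β w) x) ∧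
    -- (3)
    (∀ (m q N : ℕ) (β : Fin q → ℂ) (x : Fin N → ℂ), Coeffs β → Points x →
      ∀ E : ℕ, 2 ≤ E → ∃ κ : ℕ, Law E κ (oddValue β m) x) ∧
    -- (4)
    (∀ (m q N : ℕ) (β : Fin q → ℂ) (x : Fin N → ℂ), Coeffs β → Points x →
      (∀ l, (starRingEnd ℂ) (β l) = β l) → (∀ i j, x i ≠ (starRingEnd ℂ) (x j)) →
      ∃ (κ : ℕ) (H₀ : ℝ), ∀ H : ℝ, H₀ ≤ H → Module.finrank ℚ (Rel (oddValue β m 0)) +
        2 * ∑ j, Module.finrank ℚ (Near (oddValue β m (x j)) κ H) ≤ (m - 1) * q) := by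
  refine ⟨fun w hw => T_zero hw, fun r z hz d => ?_, fun n q N w β x hw hwi hβ hx E hE =>
    part2 hw hwi hβ hx E hE, fun m q N β x hβ hx E hE => part3 hβ hx E hE,
    fun m q N β x hβ hx hβ2 hx2 => part4 hβ hx hβ2 hx2⟩
  obtain ⟨κ, c, hc, h⟩ := semi_range z (fun i => mem_range (hz i)) d
  refine ⟨κ, c, hc, fun H hH P hP => ?_⟩
  by_cases h0 : MvPolynomial.aeval z P = 0
  · exact Or.inl h0
  · right
    rw [div_le_iff₀ (by positivity), mul_comm]
    exact h P h0 H hH hP

end Pool.Agent.Results.MP_9206b6_nt.NearRelationsAtEveryScale
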